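import Pool.Agent.H97Z.TPMain

set_option autoImplicit false

open Cardinal Pool.Agent.H97Z.TP

/-- If CH fails and every stationary subset of `[ω₂]^ω` reflects to a set of size `ω₁`, then there
is no `ω₂`-Aronszajn tree. -/
theorem Pool.Agent.Results.MP_635355_lc.ATreeProperty.result
    (notCH : Cardinal.continuum.{0} ≠ ℵ₁) (refl : Reflection) : TreeProperty :=
  main notCH refl
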